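import Pool.Agent.H76.PS.Defs

/-!
# Project PS, job A4: assembly of part A
-/

set_option autoImplicit false
set_option linter.unusedSectionVars false

namespace Pool.Agent.K7.H65.PS

open Pool.Agent.H76.PS

/-! ### Linear algebra over `ZMod 2` -/

section lin
variable {V : Type} [AddCommGroup V] [Module (ZMod 2) V]

lemma two_cases (t : ZMod 2) : t = 0 ∨ t = 1 := by
  revert t
  decide

lemma add_self' (a : V) : a + a = 0 := by
  have h : (2 : ZMod 2) • a = 0 := by
    rw [show (2 : ZMod 2) = 0 from rfl, zero_smul]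
  rw [two_smul] at h
  exact h

/-- two vectors outside a subspace of codimension one -/
lemma codim_one [FiniteDimensional (ZMod 2) V] {P : Submodule (ZMod 2) V}
    (hP : Module.finrank (ZMod 2) P + 1 = Module.finrank (ZMod 2) V) {a b : V} (ha : a ∉ P)
    (hb : b ∉ P) : a + b ∈ P := by
  have h1 : P < P ⊔ Submodule.span (ZMod 2) {a} := by
    refine lt_of_le_of_ne le_sup_left fun h => ha ?_
    rw [h]
    exact Submodule.mem_sup_right (Submodule.mem_span_singleton_self a)
  have h2 := Submodule.finrank_lt_finrank_of_lt h1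
  have h3 : P ⊔ Submodule.span (ZMod 2) {a} = ⊤ := by
    apply Submodule.eq_top_of_finrank_eq
    have := Submodule.finrank_le (P ⊔ Submodule.span (ZMod 2) {a})
    omega
  have h4 : b ∈ P ⊔ Submodule.span (ZMod 2) {a} := by rw [h3]; exact Submodule.mem_top
  obtain ⟨p, hp, z, hz, rfl⟩ := Submodule.mem_sup.1 h4
  obtain ⟨t, rfl⟩ := Submodule.mem_span_singleton.1 hz
  rcases two_cases t with rfl | rfl
  · rw [zero_smul, add_zero] at hb
    exact absurd hp hb
  · rw [one_smul, add_comm p a, ← add_assoc, add_self', zero_add]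
    exact hp

/-- two proper subspaces do not cover the space -/
lemma exists_not_mem {P Q : Submodule (ZMod 2) V} (hP : P ≠ ⊤) (hQ : Q ≠ ⊤) :
    ∃ v, v ∉ P ∧ v ∉ Q := by
  by_contra hcon
  push Not at hcon
  obtain ⟨a, ha⟩ : ∃ a, a ∉ P := by
    by_contra h
    push Not at h
    exact hP (eq_top_iff.2 fun x _ => h x)
  obtain ⟨b, hb⟩ : ∃ b, b ∉ Q := by
    by_contra h
    push Not at h
    exact hQ (eq_top_iff.2 fun x _ => h x)
  have haQ := hcon a ha
  have hbP : b ∈ P := by
    by_contra h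
    exact hb (hcon b h)
  by_cases hab : a + b ∈ P
  · apply ha
    have := P.sub_mem hab hbP
    rwa [add_sub_cancel_right] at this
  · have h1 := hcon _ hab
    apply hb
    have := Q.sub_mem h1 haQ
    rwa [add_sub_cancel_left] at this

end lin

/-! ### Characters -/

section char
variable {G : Type} [Group G] [TopologicalSpace G]

lemma HS_one {φ : G → ZMod 2} (h : φ ∈ HS G) : φ 1 = 0 := by
  have := h.2 1 1
  rw [mul_one] at this
  simpa using this

lemma HS_inv {φ : G → ZMod 2} (h : φ ∈ HS G) (x : G) : φ x⁻¹ = φ x := by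
  have h1 := h.2 x x⁻¹
  rw [mul_inv_cancel, HS_one h] at h1
  have h2 : φ x + φ x = 0 := CharTwo.add_self_eq_zero _
  have : φ x + φ x⁻¹ = φ x + φ x := by rw [h2, ← h1]
  exact add_left_cancel this

/-- isomorphic groups have isomorphic spaces of characters -/
noncomputable def HScongr {H : Type} [Group H] [TopologicalSpace H] (e : G ≃* H) (he : Continuous e)
    (he' : Continuous e.symm) : HS G ≃ₗ[ZMod 2] HS H where
  toFun φ := ⟨fun h => (φ : G → ZMod 2) (e.symm h), φ.2.1.comp_continuous he', fun x y => by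
    show (φ : G → ZMod 2) (e.symm (x * y)) = _
    rw [map_mul, φ.2.2]⟩
  invFun φ := ⟨fun g => (φ : H → ZMod 2) (e g), φ.2.1.comp_continuous he, fun x y => by
    show (φ : H → ZMod 2) (e (x * y)) = _
    rw [map_mul, φ.2.2]⟩
  map_add' _ _ := rfl
  map_smul' _ _ := rfl
  left_inv φ := by
    apply Subtype.ext
    funext g
    show (φ : G → ZMod 2) (e.symm (e g)) = _
    rw [e.symm_apply_apply]
  right_inv φ := by
    apply Subtype.ext
    funext g
    show (φ : H → ZMod 2) (e (e.symm g)) = _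
    rw [e.apply_symm_apply]

lemma finrank_top {c : ℕ} (hc : Cnt G c) : Module.finrank (ZMod 2) (HS G) = c + 2 := by
  have h1 := hc ⊤ isOpen_univ
  rw [Subgroup.index_top, mul_one] at h1
  rw [← h1]
  exact (LinearEquiv.finrank_eq (HScongr Subgroup.topEquiv continuous_subtype_val
    (continuous_id.subtype_mk _))).symm

lemma fin_HS {c : ℕ} (hc : Cnt G c) : FiniteDimensional (ZMod 2) (HS G) :=
  Module.finite_of_finrank_pos (by rw [finrank_top hc]; omega)

lemma open_map {Q : Subgroup G} (hQ : IsOpen (Q : Set G)) {U : Subgroup Q}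
    (hU : IsOpen (U : Set Q)) : IsOpen ((U.map Q.subtype : Subgroup G) : Set G) := by
  rw [Subgroup.coe_map]
  exact hQ.isOpenEmbedding_subtypeVal.isOpenMap _ hU

/-- (a) the counting condition for a subgroup of index two -/
lemma cnt_sub {c : ℕ} (hc : Cnt G c) {Q : Subgroup G} (hQ : IsOpen (Q : Set G)) (h2 : Q.index = 2) :
    Cnt Q (2 * c) := by
  intro U hU
  have h1 := hc (U.map Q.subtype) (open_map hQ hU)
  rw [Subgroup.index_map_subtype, h2] at h1
  have e : U ≃* (U.map Q.subtype : Subgroup G) := U.equivMapOfInjective Q.subtype Subtype.val_injective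
  rw [LinearEquiv.finrank_eq (HScongr (U.equivMapOfInjective Q.subtype Subtype.val_injective) ?_ ?_),
    h1]
  · ring
  · refine Continuous.subtype_mk ?_ _
    exact continuous_subtype_val.comp continuous_subtype_val
  · rw [continuous_induced_rng, continuous_induced_rng]
    have : (Subtype.val ∘ Subtype.val ∘
        (U.equivMapOfInjective Q.subtype Subtype.val_injective).symm : _ → G) = Subtype.val := by
      funext x
      obtain ⟨y, rfl⟩ := (U.equivMapOfInjective Q.subtype Subtype.val_injective).surjective x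
      show (((U.equivMapOfInjective Q.subtype Subtype.val_injective).symm
        (U.equivMapOfInjective Q.subtype Subtype.val_injective y) : Q) : G) = _
      rw [MulEquiv.symm_apply_apply]
      rfl
    rw [this]
    exact continuous_subtype_val

lemma pow2_sub (hp : Pow2 G) {Q : Subgroup G} (hQ : IsOpen (Q : Set G)) : Pow2 Q := by
  intro U hU
  obtain ⟨k, hk⟩ := hp (U.map Q.subtype) (open_map hQ hU)
  rw [Subgroup.index_map_subtype] at hk
  have : U.index ∣ 2 ^ k := by rw [← hk]; exact Dvd.intro _ rfl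
  obtain ⟨j, -, hj⟩ := (Nat.dvd_prime_pow Nat.prime_two).1 this
  exact ⟨j, hj⟩

/-- the kernel of a character -/
def kerS (ψ : G → ZMod 2) (h : ψ ∈ HS G) : Subgroup G where
  carrier := {g | ψ g = 0}
  one_mem' := HS_one h
  mul_mem' := by
    intro a b ha hb
    show ψ (a * b) = 0
    rw [h.2, show ψ a = 0 from ha, show ψ b = 0 from hb, add_zero]
  inv_mem' := by
    intro a ha
    show ψ a⁻¹ = 0
    rw [HS_inv h]
    exact ha

lemma mem_kerS {ψ : G → ZMod 2} (h : ψ ∈ HS G) {g : G} : g ∈ kerS ψ h ↔ ψ g = 0 := Iff.rfl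

lemma kerS_open {ψ : G → ZMod 2} (h : ψ ∈ HS G) : IsOpen (kerS ψ h : Set G) :=
  h.1.isOpen_fiber 0

lemma exists_one {ψ : G → ZMod 2} (hne : ψ ≠ 0) : ∃ t, ψ t = 1 := by
  obtain ⟨t, ht⟩ := Function.ne_iff.1 hne
  exact ⟨t, (two_cases (ψ t)).resolve_left ht⟩

lemma kerS_index {ψ : G → ZMod 2} (h : ψ ∈ HS G) (hne : ψ ≠ 0) : (kerS ψ h).index = 2 := by
  obtain ⟨t, ht⟩ := exists_one hne
  rw [Subgroup.index_eq_two_iff]
  refine ⟨t, fun b => ?_⟩
  rw [mem_kerS, mem_kerS, h.2, ht]
  rcases two_cases (ψ b) with hb | hb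
  · right
    rw [hb]
    exact ⟨rfl, by decide⟩
  · left
    rw [hb]
    exact ⟨by decide, by decide⟩

lemma chi_kerS {ψ : G → ZMod 2} (h : ψ ∈ HS G) : chi (kerS ψ h) = ψ := by
  classical
  funext g
  unfold chi
  by_cases hg : g ∈ kerS ψ h
  · rw [if_pos hg]
    exact (show ψ g = 0 from hg).symm
  · rw [if_neg hg]
    exact ((two_cases (ψ g)).resolve_left hg).symm

lemma cup_add (ψ b b' : G → ZMod 2) : cup ψ (b + b') = cup ψ b + cup ψ b' := by
  funext x y
  exact mul_add _ _ _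

lemma add_cup (ψ ψ' b : G → ZMod 2) : cup (ψ + ψ') b = cup ψ b + cup ψ' b := by
  funext x y
  exact add_mul _ _ _

lemma cup_smul (ψ b : G → ZMod 2) (a : ZMod 2) : cup ψ (a • b) = a • cup ψ b := by
  funext x y
  show ψ x * (a * b y) = a * (ψ x * b y)
  ring

lemma zero_cup (b : G → ZMod 2) : cup (0 : G → ZMod 2) b = 0 := by
  funext x y
  exact zero_mul _

lemma cup_zero (b : G → ZMod 2) : cup b (0 : G → ZMod 2) = 0 := by
  funext x y
  exact mul_zero _

lemma cup_sym {ψ b : G → ZMod 2} (hψ : ψ ∈ HS G) (hb : b ∈ HS G) : cup ψ b + cup b ψ ∈ B2 G := by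
  refine ⟨fun x => ψ x * b x, hψ.1.mul hb.1, fun x y => ?_⟩
  show ψ x * b y + b x * ψ y = ψ x * b x + ψ y * b y + ψ (x * y) * b (x * y)
  rw [hψ.2, hb.2]
  generalize ψ x = a1
  generalize ψ y = a2
  generalize b x = a3
  generalize b y = a4
  revert a1 a2 a3 a4
  decide

/-- the orthogonal space of a character -/
def perp (ψ : G → ZMod 2) : Submodule (ZMod 2) (HS G) where
  carrier := {y | cup ψ y ∈ B2 G}
  add_mem' := by
    intro a b ha hb
    show cup ψ ((a : G → ZMod 2) + b) ∈ B2 G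
    rw [cup_add]
    exact (B2 G).add_mem ha hb
  zero_mem' := by
    show cup ψ 0 ∈ B2 G
    rw [cup_zero]
    exact (B2 G).zero_mem
  smul_mem' := by
    intro t a ha
    show cup ψ (t • (a : G → ZMod 2)) ∈ B2 G
    rw [cup_smul]
    exact (B2 G).smul_mem t ha

lemma mem_perp {ψ : G → ZMod 2} {y : HS G} : y ∈ perp ψ ↔ cup ψ y ∈ B2 G := Iff.rfl

/-- restriction of characters -/
def res (Q : Subgroup G) : HS G →ₗ[ZMod 2] HS Q where
  toFun φ := ⟨fun q => (φ : G → ZMod 2) q, φ.2.1.comp_continuous continuous_subtype_val,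
    fun x y => φ.2.2 x y⟩
  map_add' _ _ := rfl
  map_smul' _ _ := rfl

variable [IsTopologicalGroup G]

/-- (b) the dimension of the orthogonal space -/
theorem finrank_perp (h2 : StA2) {c : ℕ} (hc : Cnt G c) {ψ : G → ZMod 2} (hψ : ψ ∈ HS G)
    (hne : ψ ≠ 0) : Module.finrank (ZMod 2) (perp ψ) + 1 = Module.finrank (ZMod 2) (HS G) := by
  set Q := kerS ψ hψ with hQ
  have hQo : IsOpen (Q : Set G) := kerS_open hψ
  have hQ2 : Q.index = 2 := kerS_index hψ hne
  obtain ⟨t, ht⟩ := exists_one hne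
  have htQ : t ∉ Q := by
    rw [hQ, mem_kerS, ht]
    decide
  obtain ⟨a1, a2, a3, a4⟩ := h2 G Q t hQo hQ2 htQ
  have hchi : chi Q = ψ := chi_kerS hψ
  have hfG := fin_HS hc
  have hfQ := fin_HS (cnt_sub hc hQo hQ2)
  let corA : HS Q →+ HS G := AddMonoidHom.mk' (fun b => ⟨cor Q t b, a1 b b.2⟩) (fun b b' =>
    Subtype.ext (a2 b b'))
  let corL : HS Q →ₗ[ZMod 2] HS G := corA.toZModLinearMap 2
  have hcor : ∀ b : HS Q, ((corL b : HS G) : G → ZMod 2) = cor Q t b := fun b => rfl
  have e1 : LinearMap.range corL = perp ψ := by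
    ext y
    rw [LinearMap.mem_range, mem_perp, ← hchi, a4 y y.2]
    constructor
    · rintro ⟨b, rfl⟩
      exact ⟨b, b.2, (hcor b).symm⟩
    · rintro ⟨b, hb, hby⟩
      exact ⟨⟨b, hb⟩, Subtype.ext hby⟩
  have e2 : LinearMap.ker corL = LinearMap.range (res Q) := by
    ext b
    rw [LinearMap.mem_ker, LinearMap.mem_range]
    have h5 : corL b = 0 ↔ cor Q t b = 0 := by
      rw [← hcor b]
      exact Subtype.ext_iff
    rw [h5, a3 b b.2]
    constructor
    · rintro ⟨φ, hφ, h⟩
      exact ⟨⟨φ, hφ⟩, Subtype.ext (funext fun q => (h q).symm)⟩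
    · rintro ⟨φ, rfl⟩
      exact ⟨φ, φ.2, fun q => rfl⟩
  have e3 : LinearMap.ker (res Q) = Submodule.span (ZMod 2) {(⟨ψ, hψ⟩ : HS G)} := by
    ext φ
    rw [LinearMap.mem_ker, Submodule.mem_span_singleton]
    constructor
    · intro h
      have h6 : ∀ q ∈ Q, (φ : G → ZMod 2) q = 0 := fun q hq =>
        congrFun (congrArg Subtype.val h) ⟨q, hq⟩
      refine ⟨(φ : G → ZMod 2) t, ?_⟩
      apply Subtype.ext
      funext g
      show (φ : G → ZMod 2) t * ψ g = (φ : G → ZMod 2) g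
      rcases two_cases (ψ g) with hg | hg
      · rw [hg, mul_zero, h6 g hg]
      · rw [hg, mul_one]
        have h7 : g * t ∈ Q := by
          rw [hQ, mem_kerS, hψ.2, hg, ht]
          decide
        have h8 := h6 _ h7
        rw [φ.2.2] at h8
        exact (CharTwo.add_eq_zero.1 h8).symm
    · rintro ⟨a, rfl⟩
      apply Subtype.ext
      funext q
      show a * ψ q = 0
      rw [show ψ q = 0 from q.2, mul_zero]
  have f1 := LinearMap.finrank_range_add_finrank_ker corL
  have f2 := LinearMap.finrank_range_add_finrank_ker (res Q)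
  rw [e1, e2, finrank_top (cnt_sub hc hQo hQ2)] at f1
  rw [e3, finrank_span_singleton (by
    intro h
    exact hne (congrArg Subtype.val h)), finrank_top hc] at f2
  rw [finrank_top hc]
  omega

/-- the second conclusion -/
theorem nontriv (h2 : StA2) {c : ℕ} (hc : Cnt G c) {ψ : G → ZMod 2} (hψ : ψ ∈ HS G)
    (hne : ψ ≠ 0) : ∃ b ∈ HS G, cup ψ b ∉ B2 G := by
  by_contra hcon
  push Not at hcon
  have h1 : perp ψ = ⊤ := eq_top_iff.2 fun y _ => hcon y y.2
  have h3 := finrank_perp h2 hc hψ hne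
  rw [h1, _root_.finrank_top] at h3
  omega

lemma ne_zero_of_cup {ψ b : G → ZMod 2} (h : cup ψ b ∉ B2 G) : ψ ≠ 0 ∧ b ≠ 0 := by
  constructor
  · rintro rfl
    rw [zero_cup] at h
    exact h (B2 G).zero_mem
  · rintro rfl
    rw [cup_zero] at h
    exact h (B2 G).zero_mem

/-- being cohomologous is transitive -/
lemma coh_trans {a b c : G → G → ZMod 2} (h1 : a + b ∈ B2 G) (h2 : b + c ∈ B2 G) :
    a + c ∈ B2 G := by
  have h3 := (B2 G).add_mem h1 h2
  have e : a + b + (b + c) = a + c := by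
    rw [add_assoc, ← add_assoc b b c, add_self' b, zero_add]
  rwa [e] at h3

lemma coh_symm {a b : G → G → ZMod 2} (h1 : a + b ∈ B2 G) : b + a ∈ B2 G := by rwa [add_comm]

lemma coh_mem {a b : G → G → ZMod 2} (h1 : a + b ∈ B2 G) (h : a ∈ B2 G) : b ∈ B2 G := by
  have h3 := (B2 G).add_mem h h1
  rwa [← add_assoc, add_self' a, zero_add] at h3

/-- two characters outside the orthogonal space -/
lemma coh_right (h2 : StA2) {c : ℕ} (hc : Cnt G c) {ψ b b' : G → ZMod 2} (hψ : ψ ∈ HS G)
    (hb : b ∈ HS G) (hb' : b' ∈ HS G) (h : cup ψ b ∉ B2 G) (h' : cup ψ b' ∉ B2 G) :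
    cup ψ b + cup ψ b' ∈ B2 G := by
  have hfG := fin_HS hc
  have h1 : (⟨b, hb⟩ : HS G) + ⟨b', hb'⟩ ∈ perp ψ :=
    codim_one (finrank_perp h2 hc hψ (ne_zero_of_cup h).1) (a := ⟨b, hb⟩) (b := ⟨b', hb'⟩) h h'
  have h3 : cup ψ (b + b') ∈ B2 G := h1
  rwa [cup_add] at h3

/-- (c) the nontrivial cup products are cohomologous -/
theorem coh (h2 : StA2) {c : ℕ} (hc : Cnt G c) {ψ b ψ' b' : G → ZMod 2} (hψ : ψ ∈ HS G)
    (hb : b ∈ HS G) (hψ' : ψ' ∈ HS G) (hb' : b' ∈ HS G) (h : cup ψ b ∉ B2 G)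
    (h' : cup ψ' b' ∉ B2 G) : cup ψ b + cup ψ' b' ∈ B2 G := by
  have hne : perp ψ ≠ ⊤ := by
    intro h1
    apply h
    have : (⟨b, hb⟩ : HS G) ∈ perp ψ := by rw [h1]; exact Submodule.mem_top
    exact this
  have hne' : perp ψ' ≠ ⊤ := by
    intro h1
    apply h'
    have : (⟨b', hb'⟩ : HS G) ∈ perp ψ' := by rw [h1]; exact Submodule.mem_top
    exact this
  obtain ⟨y, hy, hy'⟩ := exists_not_mem hne hne'
  have k1 : cup ψ y ∉ B2 G := hy
  have k1' : cup ψ' y ∉ B2 G := hy'
  have k2 : cup y ψ ∉ B2 G := fun h3 => k1 (coh_mem (cup_sym y.2 hψ) h3)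
  have k2' : cup y ψ' ∉ B2 G := fun h3 => k1' (coh_mem (cup_sym y.2 hψ') h3)
  have e1 := coh_right h2 hc hψ hb y.2 h k1
  have e2 := cup_sym hψ y.2
  have e3 := coh_right h2 hc y.2 hψ hψ' k2 k2'
  have e4 := cup_sym y.2 hψ'
  have e5 := coh_right h2 hc hψ' y.2 hb' k1' h'
  exact coh_trans (coh_trans (coh_trans (coh_trans e1 e2) e3) e4) e5

/-- (d) the orthogonal spaces are different -/
theorem exists_diff (h2 : StA2) {c : ℕ} (hc : Cnt G c) {ψ ψ' : G → ZMod 2} (hψ : ψ ∈ HS G)
    (hψ' : ψ' ∈ HS G) (hne : ψ ≠ 0) (hne' : ψ' ≠ 0) (hd : ψ ≠ ψ') :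
    ∃ y ∈ HS G, cup ψ y ∈ B2 G ∧ cup ψ' y ∉ B2 G := by
  by_contra hcon
  push Not at hcon
  have hfG := fin_HS hc
  have hle : perp ψ ≤ perp ψ' := fun y hy => hcon y y.2 hy
  have d1 := finrank_perp h2 hc hψ hne
  have d2 := finrank_perp h2 hc hψ' hne'
  have heq : perp ψ = perp ψ' := Submodule.eq_of_le_of_finrank_eq hle (by omega)
  have hs : ψ + ψ' ≠ 0 := by
    intro h
    exact hd (CharTwo.add_eq_zero.1 h)
  obtain ⟨b, hb, hb2⟩ := nontriv h2 hc ((HS G).add_mem hψ hψ') hs
  apply hb2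
  rw [add_cup]
  by_cases h3 : cup ψ b ∈ B2 G
  · exact (B2 G).add_mem h3 (hcon b hb h3)
  · have h4 : cup ψ' b ∉ B2 G := by
      intro h5
      apply h3
      have : (⟨b, hb⟩ : HS G) ∈ perp ψ := by rw [heq]; exact h5
      exact this
    exact coh h2 hc hψ hb hψ' hb h3 h4

end char

/-! ### The topological part -/

section top
variable {G : Type} [Group G] [TopologicalSpace G] [IsTopologicalGroup G] [CompactSpace G]

/-- the elements which can be left out in the arguments of a function of two variables -/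
def inv2 (e : G → G → ZMod 2) : Subgroup G where
  carrier := {g | ∀ x y z, e (x * g * y) z = e (x * y) z ∧ e z (x * g * y) = e z (x * y)}
  one_mem' := by
    intro x y z
    rw [mul_one]
    exact ⟨rfl, rfl⟩
  mul_mem' := by
    intro a b ha hb x y z
    have e1 : x * (a * b) * y = x * a * (b * y) := by group
    have e2 : x * (b * y) = x * b * y := by group
    rw [e1, (ha x (b * y) z).1, (ha x (b * y) z).2, e2]
    exact hb x y z
  inv_mem' := by
    intro a ha x y z
    have e1 : x * y = x * a⁻¹ * a * y := by group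
    rw [e1, (ha (x * a⁻¹) y z).1, (ha (x * a⁻¹) y z).2]
    exact ⟨rfl, rfl⟩

lemma inv2_normal (e : G → G → ZMod 2) : (inv2 e).Normal := by
  constructor
  intro n hn g x y z
  have e1 : x * (g * n * g⁻¹) * y = (x * g) * n * (g⁻¹ * y) := by group
  have e2 : x * y = (x * g) * (g⁻¹ * y) := by group
  rw [e1, e2]
  exact hn (x * g) (g⁻¹ * y) z

open Topology in
lemma inv2_open {e : G → G → ZMod 2} (he : IsLocallyConstant (fun v : G × G => e v.1 v.2)) :
    IsOpen (inv2 e : Set G) := by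
  apply Subgroup.isOpen_of_mem_nhds (g := 1)
  have h1 : ∀ᶠ g in 𝓝 (1 : G), ∀ v ∈ (Set.univ : Set (G × G × G)),
      e (v.1 * g * v.2.1) v.2.2 = e (v.1 * v.2.1) v.2.2 ∧
      e v.2.2 (v.1 * g * v.2.1) = e v.2.2 (v.1 * v.2.1) := by
    refine isCompact_univ.eventually_forall_of_forall_eventually fun v _ => ?_
    have c1 : IsLocallyConstant (fun p : G × (G × G × G) =>
        (e (p.2.1 * p.1 * p.2.2.1) p.2.2.2, e (p.2.1 * p.2.2.1) p.2.2.2,
          e p.2.2.2 (p.2.1 * p.1 * p.2.2.1), e p.2.2.2 (p.2.1 * p.2.2.1))) := by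
      refine IsLocallyConstant.prodMk ?_ (IsLocallyConstant.prodMk ?_
        (IsLocallyConstant.prodMk ?_ ?_))
      · exact he.comp_continuous (f := fun p : G × (G × G × G) =>
          (p.2.1 * p.1 * p.2.2.1, p.2.2.2)) (by fun_prop)
      · exact he.comp_continuous (f := fun p : G × (G × G × G) =>
          (p.2.1 * p.2.2.1, p.2.2.2)) (by fun_prop)
      · exact he.comp_continuous (f := fun p : G × (G × G × G) =>
          (p.2.2.2, p.2.1 * p.1 * p.2.2.1)) (by fun_prop)
      · exact he.comp_continuous (f := fun p : G × (G × G × G) =>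
          (p.2.2.2, p.2.1 * p.2.2.1)) (by fun_prop)
    have c2 := (IsLocallyConstant.iff_eventually_eq _).1 c1 ((1 : G), v)
    filter_upwards [c2] with p hp
    simp only [Prod.mk.injEq, mul_one] at hp
    exact ⟨hp.1.trans hp.2.1.symm, hp.2.2.1.trans hp.2.2.2.symm⟩
  filter_upwards [h1] with g hg x y z
  exact hg (x, y, z) (Set.mem_univ _)

lemma inv2_B2 (e : G → G → ZMod 2) : rs (inv2 e) e ∈ B2 (inv2 e) := by
  refine ⟨fun _ => e 1 1, IsLocallyConstant.const _, fun x y => ?_⟩
  show e x y = e 1 1 + e 1 1 + e 1 1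
  have h1 := (x.2 1 1 y).1
  have h2 := (y.2 1 1 1).2
  simp only [one_mul, mul_one] at h1 h2
  rw [h1, h2, CharTwo.add_self_eq_zero, zero_add]

/-- a subgroup of index two containing a normal subgroup -/
lemma exists_idx2 (hp : Pow2 G) {N : Subgroup G} (hN : IsOpen (N : Set G)) [N.Normal]
    (hne : N.index ≠ 1) : ∃ Q : Subgroup G, N ≤ Q ∧ Q.index = 2 := by
  obtain ⟨k, hk⟩ := hp N hN
  obtain ⟨j, rfl⟩ : ∃ j, k = j + 1 := by
    cases k with
    | zero => rw [pow_zero] at hk; exact absurd hk hne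
    | succ j => exact ⟨j, rfl⟩
  have hcard : Nat.card (G ⧸ N) = 2 ^ (j + 1) := hk
  have hfin : Finite (G ⧸ N) := Nat.finite_of_card_ne_zero (by rw [hcard]; positivity)
  obtain ⟨K, hK⟩ := Sylow.exists_subgroup_card_pow_prime (G := G ⧸ N) 2 (n := j)
    (by rw [hcard]; exact pow_dvd_pow 2 (Nat.le_succ j))
  refine ⟨K.comap (QuotientGroup.mk' N), ?_, ?_⟩
  · intro n hn
    rw [Subgroup.mem_comap]
    have : QuotientGroup.mk' N n = 1 := (QuotientGroup.eq_one_iff n).2 hn
    rw [this]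
    exact K.one_mem
  · rw [Subgroup.index_comap_of_surjective K (QuotientGroup.mk'_surjective N)]
    have h1 := K.card_mul_index
    rw [hK, hcard, pow_succ] at h1
    exact Nat.eq_of_mul_eq_mul_left (by positivity) h1

end top

/-- (e) every cocycle is trivial or cohomologous to a cup product -/
theorem main (h1 : StA1) (h2 : StA2) (h3 : StA3) (n : ℕ) :
    ∀ (G : Type) [Group G] [TopologicalSpace G] [IsTopologicalGroup G] [CompactSpace G] (c : ℕ),
      1 ≤ c → Cnt G c → Pow2 G → ∀ N : Subgroup G, IsOpen (N : Set G) → N.Normal → N.index = n →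
      ∀ e ∈ Z2 G, rs N e ∈ B2 N →
        e ∈ B2 G ∨ ∃ ψ ∈ HS G, ∃ b ∈ HS G, cup ψ b ∉ B2 G ∧ e + cup ψ b ∈ B2 G := by
  induction n using Nat.strong_induction_on with
  | _ n ih =>
  intro G _ _ _ _ c hc1 hc hp N hN hNn hidx e he heN
  by_cases hone : n = 1
  · left
    rw [hone, Subgroup.index_eq_one] at hidx
    subst hidx
    obtain ⟨a, ha, ha2⟩ := heN
    exact ⟨fun g => a ⟨g, Subgroup.mem_top g⟩,
      ha.comp_continuous (continuous_id.subtype_mk _), fun x y => ha2 ⟨x, _⟩ ⟨y, _⟩⟩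
  · obtain ⟨Q, hNQ, hQ2⟩ := exists_idx2 hp hN (by rwa [hidx])
    have hQo : IsOpen (Q : Set G) := Subgroup.isOpen_mono hNQ hN
    have hQc : IsClosed (Q : Set G) := Q.isClosed_of_isOpen hQo
    have hQcomp : CompactSpace Q := isCompact_iff_compactSpace.1 hQc.isCompact
    have hcQ := cnt_sub hc hQo hQ2
    have hpQ := pow2_sub hp hQo
    have hchi : chi Q ∈ HS G := by
      classical
      refine ⟨?_, ?_⟩
      · rw [IsLocallyConstant.iff_continuous]
        unfold chi
        exact (continuous_const).if (fun a ha => by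
          have h5 : frontier {a | a ∈ Q} = ∅ :=
            IsClopen.frontier_eq ⟨hQc, hQo⟩
          rw [h5] at ha
          exact absurd ha (Set.notMem_empty a)) continuous_const
      · intro x y
        unfold chi
        have h6 := Subgroup.mul_mem_iff_of_index_two hQ2 (a := x) (b := y)
        by_cases hx : x ∈ Q <;> by_cases hy : y ∈ Q
        · rw [if_pos hx, if_pos hy, if_pos (h6.2 (iff_of_true hx hy)), add_zero]
        · rw [if_pos hx, if_neg hy, if_neg (fun h => hy ((h6.1 h).1 hx)), zero_add]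
        · rw [if_neg hx, if_pos hy, if_neg (fun h => hx ((h6.1 h).2 hy)), add_zero]
        · rw [if_neg hx, if_neg hy, if_pos (h6.2 (iff_of_false hx hy))]
          decide
    -- the restriction to `Q`
    have heQ : rs Q e ∈ Z2 Q := by
      refine ⟨?_, fun x y z => he.2 x y z⟩
      exact he.1.comp_continuous (f := fun v : Q × Q => ((v.1 : G), (v.2 : G))) (by fun_prop)
    have hNo : IsOpen ((N.subgroupOf Q : Subgroup Q) : Set Q) :=
      hN.preimage continuous_subtype_val
    have hNi : (N.subgroupOf Q).index * 2 = n := by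
      rw [← hidx, ← hQ2]
      exact Subgroup.relIndex_mul_index hNQ
    have heNQ : rs (N.subgroupOf Q) (rs Q e) ∈ B2 (N.subgroupOf Q) := by
      obtain ⟨a, ha, ha2⟩ := heN
      refine ⟨fun g => a ⟨(g : Q), g.2⟩, ?_, fun x y => ha2 ⟨(x : Q), x.2⟩ ⟨(y : Q), y.2⟩⟩
      refine ha.comp_continuous ?_
      exact (continuous_subtype_val.comp continuous_subtype_val).subtype_mk _
    have hn0 : n ≠ 0 := by
      rw [← hidx]
      obtain ⟨k, hk⟩ := hp N hN
      rw [hk]
      positivity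
    have hih := ih (N.subgroupOf Q).index (by omega) Q (2 * c) (by omega) hcQ hpQ (N.subgroupOf Q)
      hNo inferInstance rfl (rs Q e) heQ heNQ
    rcases hih with hih | ⟨ψ₁, hψ₁, b₁, hb₁, hne₁, hih⟩
    · obtain ⟨b, hb, heb⟩ := h1 G Q hQo hQ2 e he hih
      by_cases hcb : cup (chi Q) b ∈ B2 G
      · left
        exact coh_mem (coh_symm heb) hcb
      · right
        exact ⟨chi Q, hchi, b, hb, hcb, heb⟩
    · exfalso
      obtain ⟨t, htQ⟩ : ∃ t, t ∉ Q := by
        by_contra hcon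
        push Not at hcon
        have : Q = ⊤ := eq_top_iff.2 fun x _ => hcon x
        rw [this, Subgroup.index_top] at hQ2
        omega
      have hchi0 : chi Q ≠ 0 := by
        classical
        intro h
        have h5 : (if t ∈ Q then (0 : ZMod 2) else 1) = 0 := congrFun h t
        rw [if_neg htQ] at h5
        exact one_ne_zero h5
      have hfG := fin_HS hc
      obtain ⟨ψ, hψ⟩ : ∃ ψ : HS G, ψ ∉ Submodule.span (ZMod 2) {(⟨chi Q, hchi⟩ : HS G)} := by
        by_contra hcon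
        push Not at hcon
        have h5 : Submodule.span (ZMod 2) {(⟨chi Q, hchi⟩ : HS G)} = ⊤ :=
          eq_top_iff.2 fun x _ => hcon x
        have h6 := finrank_span_singleton (K := ZMod 2) (v := (⟨chi Q, hchi⟩ : HS G))
          (fun h => hchi0 (congrArg Subtype.val h))
        rw [h5, _root_.finrank_top, finrank_top hc] at h6
        omega
      have hψ0 : (ψ : G → ZMod 2) ≠ 0 := by
        intro h
        apply hψ
        have : ψ = 0 := Subtype.ext h
        rw [this]
        exact Submodule.zero_mem _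
      have hψc : chi Q ≠ (ψ : G → ZMod 2) := by
        intro h
        apply hψ
        have : ψ = ⟨chi Q, hchi⟩ := Subtype.ext h.symm
        rw [this]
        exact Submodule.mem_span_singleton_self _
      obtain ⟨y, hy, hy1, hy2⟩ := exists_diff h2 hc hchi ψ.2 hchi0 hψ0 hψc
      obtain ⟨b', hb', rfl⟩ := ((h2 G Q t hQo hQ2 htQ).2.2.2 y hy).1 hy1
      have hψQ : (fun q : Q => (ψ : G → ZMod 2) q) ∈ HS Q := (res Q ψ).2
      by_cases hcase : cup (fun q : Q => (ψ : G → ZMod 2) q) b' ∈ B2 Q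
      · apply hy2
        refine h3 G Q t hQo hQ2 htQ 0 (Z2 G).zero_mem ψ ψ.2 b' hb' ?_
        have e1 : rs Q (0 : G → G → ZMod 2) = 0 := rfl
        rw [e1, zero_add]
        exact hcase
      · apply hy2
        refine h3 G Q t hQo hQ2 htQ e he ψ ψ.2 b' hb' ?_
        exact coh_trans hih (coh h2 hcQ hψ₁ hb₁ hψQ hb' hne₁ hcase)

/-- **Job A4** -/
theorem stA4 : StA4 := by
  intro h1 h2 h3 G _ _ _ _ c hc1 hc hp
  refine ⟨fun e₁ he₁ e₂ he₂ hn₁ hn₂ => ?_, fun ψ hψ hne => nontriv h2 hc hψ hne⟩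
  have key : ∀ e ∈ Z2 G, e ∉ B2 G → ∃ ψ ∈ HS G, ∃ b ∈ HS G, cup ψ b ∉ B2 G ∧
      e + cup ψ b ∈ B2 G := fun e he hn =>
    (main h1 h2 h3 _ G c hc1 hc hp (inv2 e) (inv2_open he.1) (inv2_normal e) rfl e he
      (inv2_B2 e)).resolve_left hn
  obtain ⟨ψ₁, a1, b₁, a2, a3, a4⟩ := key e₁ he₁ hn₁
  obtain ⟨ψ₂, d1, b₂, d2, d3, d4⟩ := key e₂ he₂ hn₂
  exact coh_trans (coh_trans a4 (coh h2 hc a1 a2 d1 d2 a3 d3)) (coh_symm d4)

end Pool.Agent.K7.H65.PS
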